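import Mathlib
import Pool.Agent.EGF.StmtsV

set_option autoImplicit false

/-! Row RBD of the squad EGF: robust colours. -/

open Finset

namespace Pool.Agent.EGF.H95

open Pool.Agent.EGF

theorem spt_mono {V : Type} [DecidableEq V] {k : ℕ} {c : V → V → Fin k} {q : ℝ} {W W' : Finset V}
    (h : W ⊆ W') (T : ℝ) : spt c q W T ⊆ spt c q W' T := by
  intro g hg
  unfold spt at hg ⊢
  rw [mem_filter] at hg ⊢
  obtain ⟨h0, A, hA, B, hB, h1⟩ := hg
  exact ⟨h0, A, hA.trans h, B, hB.trans h, h1⟩

theorem rbd (ent : EntStmt) : RbdStmt := by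
  intro V _ k c U A q T B S κ hS hκ hκ8 hrec hSB hAU hA hlogA hD Z hZ hnr
  by_contra hcon
  push Not at hcon
  have hU : U.Nonempty := hA.mono hAU
  obtain ⟨hDne, -⟩ := hrec U (Finset.Subset.refl U) hU (by rw [sub_self]; linarith)
  have hex : ∀ g ∈ Z, ∃ R ⊆ A, (R.card : ℝ) ≤ κ * A.card ∧ g ∉ spt c q (A \ R) T := by
    intro g hg
    have h := hnr g hg
    unfold Rb2 at h
    push Not at h
    exact h
  choose! R hRA hRc hRn using hex
  obtain ⟨Z', hZ', A', hA'A, hA'ne, hZ'c, hsub, hlog⟩ := ent V (Fin k) Z A (fun g => A \ R g) κ hκ hA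
    (by
      intro g hg
      have h1 : A ∩ (A \ R g) = A \ R g := inter_eq_right.2 sdiff_subset
      rw [h1, card_sdiff_of_subset (hRA g hg), Nat.cast_sub (card_le_card (hRA g hg))]
      have h2 := hRc g hg
      linarith)
  have hbig : spt c q A' T ⊆ spt c q U T \ (Z \ Z') := by
    intro g hg
    rw [mem_sdiff]
    constructor
    · exact spt_mono (hA'A.trans hAU) T hg
    · intro hgz
      exact hRn g (mem_sdiff.1 hgz).1 (spt_mono (hsub g hgz) T hg)
  have hc1 := card_le_card hbig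
  rw [card_sdiff_of_subset (sdiff_subset.trans hZ), card_sdiff_of_subset hZ'] at hc1
  have hc2 : Z.card ≤ (spt c q U T).card := card_le_card hZ
  have hc3 : Z'.card ≤ Z.card := card_le_card hZ'
  have hc4 : (spt c q A' T).card + Z.card ≤ (spt c q U T).card + Z'.card := by omega
  have hc5 : ((spt c q A' T).card : ℝ) + Z.card ≤ (spt c q U T).card + Z'.card := by
    exact_mod_cast hc4
  have hc2' : (Z.card : ℝ) ≤ (spt c q U T).card := by exact_mod_cast hc2
  have hcon' : ((spt c q U T).card : ℝ) ≤ 2 * Z.card := by exact_mod_cast hcon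
  have hZ0 : (0 : ℝ) ≤ Z.card := Nat.cast_nonneg _
  have hDpos : (0 : ℝ) < (spt c q U T).card := by exact_mod_cast hDne.card_pos
  have hZ4 : (Z'.card : ℝ) ≤ Z.card / 4 := by
    refine hZ'c.trans ?_
    nlinarith
  have h58 : ((spt c q A' T).card : ℝ) ≤ 5 / 8 * (spt c q U T).card := by linarith
  have hsq : 0 ≤ √κ := Real.sqrt_nonneg κ
  have hloss : Real.log U.card - Real.log A'.card ≤ 4 * S := by
    have h1 : 3 * √κ * (Z.card : ℝ) ≤ 3 * √κ * (spt c q U T).card :=
      mul_le_mul_of_nonneg_left hc2' (by positivity)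
    linarith
  obtain ⟨hne', hR⟩ := hrec A' (hA'A.trans hAU) hA'ne (by linarith)
  have hpos' : (0 : ℝ) < (spt c q A' T).card := by exact_mod_cast hne'.card_pos
  have hl1 : Real.log (spt c q A' T).card ≤ Real.log (5 / 8) + Real.log (spt c q U T).card := by
    rw [← Real.log_mul (by norm_num) hDpos.ne']
    exact Real.log_le_log hpos' h58
  have hl2 : Real.log (5 / 8) ≤ -(3 / 8) := by
    have := Real.log_le_sub_one_of_pos (show (0 : ℝ) < 5 / 8 by norm_num)
    linarith
  nlinarith

end Pool.Agent.EGF.H95
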